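import Mathlib
import Pool.Agent.Q73.AD.TA1
import Pool.Agent.Q73.AD.TA2
import Pool.Agent.Q73.AD.TA3
import Pool.Agent.Q73.AD.TA4
import Pool.Agent.Q73.AD.TA5
import Pool.Agent.Q73.AD.TB1
import Pool.Agent.Q73.AD.TB2
import Pool.Agent.Q73.AD.TC1
import Pool.Agent.Q73.AD.TC2
import Pool.Agent.Q73.AD.TC3
import Pool.Agent.Q73.AD.TC4
import Pool.Agent.Q73.AD.TC5
import Pool.Agent.Q73.AD.TP1
import Pool.Agent.Q73.AD.TP2L
import Pool.Agent.Q73.AD.TO1L
import Pool.Agent.Q73.AD.TO2L
import Pool.Agent.Q73.AD.TO3L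
import Pool.Agent.Q73.AD.TG1
import Pool.Agent.Q73.AD.TG2
import Pool.Agent.Q73.AD.TG3L
import Pool.Agent.Q73.AD.TG4L
import Pool.Agent.Q73.AD.TR1

/-!
# The average doubling index on closed smooth surfaces (MP_c7f82c_an)

Let `M` be a closed connected surface with a Riemannian metric, given by isothermal charts with conformal
factors of class `C¹`. For every `ε > 0` and all constants `C, C₁, C₂` the average of the doubling indices
and the average of their squares over every admissible covering are at most `A (1 + lam)^ε`.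

Proof. (1) If `Δφ_j + q_j φ_j = 0`, `|q_j|, |∇q_j| ≤ κ_j²`, `|φ_j| ≤ 1` and `N_j / κ_j → ∞` then the limits
`w` of `|φ_j|^(1/N_j)` (along an ultrafilter) are log-subharmonic: a contact of `w` from above with
`exp` of a strictly superharmonic function is excluded by the Carleman inequality with the weight
`exp(-2N(x - a x²))` in a conformal coordinate. (2) A log-subharmonic function with values in `[e⁻¹, 1]`
oscillates little on most discs of radius `1/M`. So the growth exponents of a solution on the discs of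
radius `1/M` have mean square at most `(C log M / M)²` times the square of the growth exponent on the unit
disc, when the latter is much larger than `κ`. (3) Iteration over the scales down to the wavelength; the
growth exponents at the unit scale are `O(√lam)` by the same compactness argument and the strong maximum
principle.
-/

set_option autoImplicit false
open MeasureTheory Filter Topology Complex
open scoped ContDiff

namespace Pool.Agent.Results.MP_c7f82c_an.SubpolynomialAverage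

noncomputable section

universe u v

/-- the Laplacian of the plane `ℂ`: `∂_x² + ∂_y²` -/
def laplacian (f : ℂ → ℝ) (z : ℂ) : ℝ :=
  fderiv ℝ (fun w => fderiv ℝ f w 1) z 1 + fderiv ℝ (fun w => fderiv ℝ f w I) z I

/-- The lengths of the piecewise `C¹` curves from `x` to `y` on a surface with charts
`φ i : U i → M` and the metric `ρ i |dz|²` in the `i`-th chart: the `k`-th piece of the curve is
`φ (i k) ∘ γ k` on `[0, 1]`, it goes from `P k` to `P (k + 1)`. -/
def curveLengths {M : Type u} {ι : Type v} (U : ι → Set ℂ) (φ : ι → ℂ → M) (ρ : ι → ℂ → ℝ)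
    (x y : M) : Set ℝ :=
  {l | ∃ (n : ℕ) (i : ℕ → ι) (γ : ℕ → ℝ → ℂ) (P : ℕ → M), P 0 = x ∧ P n = y ∧
    (∀ k < n, ContDiff ℝ 1 (γ k) ∧ (∀ t ∈ Set.Icc (0 : ℝ) 1, γ k t ∈ U (i k)) ∧
      φ (i k) (γ k 0) = P k ∧ φ (i k) (γ k 1) = P (k + 1)) ∧
    l = ∑ k ∈ Finset.range n, ∫ t in (0 : ℝ)..1, Real.sqrt (ρ (i k) (γ k t)) * ‖deriv (γ k) t‖}

/-- A Riemannian surface given by isothermal charts: the charts `φ i`, defined on the open subsets `U i`
of the plane, are homeomorphisms onto open sets that cover `M`; in the `i`-th chart the metric is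
`ρ i |dz|²` with `ρ i > 0` of class `C¹`; the transition maps are isometries for these metrics; the
distance of `M` is the geodesic distance, the infimum of the lengths of curves. -/
structure RiemannianSurface {M : Type u} {ι : Type v} [MetricSpace M] (U : ι → Set ℂ)
    (φ : ι → ℂ → M) (ρ : ι → ℂ → ℝ) : Prop where
  isOpen_domain : ∀ i, IsOpen (U i)
  injective_chart : ∀ i, Set.InjOn (φ i) (U i)
  continuous_chart : ∀ i, ContinuousOn (φ i) (U i)
  open_chart : ∀ i (S : Set ℂ), IsOpen S → S ⊆ U i → IsOpen (φ i '' S)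
  cover : ∀ x : M, ∃ i, x ∈ φ i '' U i
  density_pos : ∀ i, ∀ z ∈ U i, 0 < ρ i z
  density_smooth : ∀ i, ContDiffOn ℝ 1 (ρ i) (U i)
  transition : ∀ i j, ∀ z ∈ U i, ∀ w ∈ U j, φ i z = φ j w → ∃ τ : ℂ → ℂ, τ z = w ∧
    (∀ᶠ z' in 𝓝 z, τ z' ∈ U j ∧ φ j (τ z') = φ i z') ∧ DifferentiableAt ℝ τ z ∧
    ∀ v : ℂ, ρ j w * ‖fderiv ℝ τ z v‖ ^ 2 = ρ i z * ‖v‖ ^ 2
  geodesic : ∀ x y : M, dist x y = sInf (curveLengths U φ ρ x y)

/-- `f` is a real smooth eigenfunction on `M`, `Δ_g f + lam f = 0`, `f ≢ 0`: in the chart `φ i` the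
Laplace-Beltrami operator is `Δ / ρ i` -/
structure IsEigenfunction {M : Type u} {ι : Type v} (U : ι → Set ℂ) (φ : ι → ℂ → M)
    (ρ : ι → ℂ → ℝ) (lam : ℝ) (f : M → ℝ) : Prop where
  smooth : ∀ i, ContDiffOn ℝ ∞ (fun z => f (φ i z)) (U i)
  eq : ∀ i, ∀ z ∈ U i, laplacian (fun z => f (φ i z)) z + lam * ρ i z * f (φ i z) = 0
  ne : ∃ x, f x ≠ 0

/-- the doubling index of `f` on the geodesic disc with centre `x` and radius `r` -/
def doubling {M : Type u} [MetricSpace M] (f : M → ℝ) (x : M) (r : ℝ) : ℝ :=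
  Real.logb 2 (sSup ((fun y => |f y|) '' Metric.ball x (2 * r)) /
    sSup ((fun y => |f y|) '' Metric.ball x r))

/-- the geodesic discs of radius `C / √lam` with centres `x i` are an admissible covering for `f` with
constants `C`, `C₁`, `C₂` -/
structure Admissible {M : Type u} [MetricSpace M] (f : M → ℝ) (lam C C₁ C₂ : ℝ) {κ : Type}
    [Fintype κ] (x : κ → M) : Prop where
  cover : ∀ y : M, ∃ i, y ∈ Metric.ball (x i) (C / Real.sqrt lam)
  lower : C₂⁻¹ * lam ≤ Fintype.card κ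
  upper : (Fintype.card κ : ℝ) ≤ C₂ * lam
  mult : ∀ y : M, ({i | y ∈ Metric.ball (x i) (C / Real.sqrt lam)}.ncard : ℝ) ≤ C₁
  zero : ∀ i, f (x i) = 0

/-- **The average doubling index is smaller than every power of the eigenvalue.** For every closed
connected Riemannian surface, all constants `C`, `C₁`, `C₂` and every `ε > 0` there is `A` such that
for every eigenfunction and every admissible covering the average of the doubling indices and the average
of their squares are at most `A (1 + lam)^ε`. -/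
theorem result : ∀ (M : Type u) (ι : Type v) [MetricSpace M] [CompactSpace M] [ConnectedSpace M]
    (U : ι → Set ℂ) (φ : ι → ℂ → M) (ρ : ι → ℂ → ℝ), RiemannianSurface U φ ρ →
    ∀ C C₁ C₂ ε : ℝ, 0 < C → 0 < C₁ → 0 < C₂ → 0 < ε → ∃ A : ℝ,
      ∀ (lam : ℝ) (f : M → ℝ), 0 < lam → IsEigenfunction U φ ρ lam f →
      ∀ (κ : Type) [Fintype κ] (x : κ → M), Admissible f lam C C₁ C₂ x →
        (∑ i, doubling f (x i) (C / Real.sqrt lam)) / Fintype.card κ ≤ A * (1 + lam) ^ ε ∧
        (∑ i, doubling f (x i) (C / Real.sqrt lam) ^ 2) / Fintype.card κ ≤ A * (1 + lam) ^ ε := by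
  intro M ι _ _ _ U φ ρ h C C₁ C₂ ε hC hC₁ hC₂ hε
  open Pool.Agent.Q73.AD in
  have hR : Riem U φ ρ := ⟨h.isOpen_domain, h.injective_chart, h.continuous_chart, h.open_chart,
    h.cover, h.density_pos, h.density_smooth, h.transition, h.geodesic⟩
  have hatl := Pool.Agent.Q73.AD.tr1 M ι U φ ρ hR
  have c1 : Pool.Agent.Q73.AD.C1 := Pool.Agent.Q73.AD.tc1
    (Pool.Agent.Q73.AD.ta4 Pool.Agent.Q73.AD.ta1 Pool.Agent.Q73.AD.ta2 Pool.Agent.Q73.AD.ta3)
    Pool.Agent.Q73.AD.ta5
  have c5 : Pool.Agent.Q73.AD.C5 := Pool.Agent.Q73.AD.tc5 Pool.Agent.Q73.AD.tc3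
  have o1 := Pool.Agent.Q73.AD.to1L Pool.Agent.Q73.AD.tb1.{0} Pool.Agent.Q73.AD.tb2.{0} c1
    Pool.Agent.Q73.AD.tc2 Pool.Agent.Q73.AD.tc4 c5 (Pool.Agent.Q73.AD.tp2L Pool.Agent.Q73.AD.tp1)
  have o3 := Pool.Agent.Q73.AD.to3L (Pool.Agent.Q73.AD.to2L o1)
  have g1 := Pool.Agent.Q73.AD.tg1.{u, v} Pool.Agent.Q73.AD.tb1.{u} Pool.Agent.Q73.AD.tb2.{u} c1
    Pool.Agent.Q73.AD.tc2 c5
  have g4 := Pool.Agent.Q73.AD.tg4L.{u, v} g1 Pool.Agent.Q73.AD.tg2.{u, v}
    (Pool.Agent.Q73.AD.tg3L.{u} o3)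
  obtain ⟨A, hA, hA2⟩ := g4 M ι U φ ρ hatl C C₁ C₂ ε hC hC₁ hC₂ hε
  refine ⟨A + 1, fun lam f hlam hf κ _ x hx => ?_⟩
  have h2 := hA2 lam f κ x hlam (fun i => ⟨hf.smooth i, hf.eq i⟩) hf.ne hx.mult hx.lower
  have h3 : (∑ i, doubling f (x i) (C / Real.sqrt lam) ^ 2) / Fintype.card κ ≤
      A * (1 + lam) ^ ε := h2
  have h4 : (1 : ℝ) ≤ (1 + lam) ^ ε := Real.one_le_rpow (by linarith) hε.le
  have hcard : (0 : ℝ) < Fintype.card κ :=
    lt_of_lt_of_le (mul_pos (inv_pos.2 hC₂) hlam) hx.lower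
  constructor
  · have h5 : (∑ i, doubling f (x i) (C / Real.sqrt lam)) / Fintype.card κ ≤
        (∑ i, doubling f (x i) (C / Real.sqrt lam) ^ 2) / Fintype.card κ + 1 := by
      rw [div_add' _ _ _ hcard.ne']
      gcongr
      rw [one_mul]
      have h6 : (Fintype.card κ : ℝ) = ∑ _i : κ, (1 : ℝ) := by simp
      rw [h6, ← Finset.sum_add_distrib]
      refine Finset.sum_le_sum fun i _ => ?_
      nlinarith [sq_nonneg (doubling f (x i) (C / Real.sqrt lam) - 1)]
    nlinarith
  · nlinarith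

end

end Pool.Agent.Results.MP_c7f82c_an.SubpolynomialAverage
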